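import Pool.Agent.NPC.Sat

/-!
# Graphs in which given edge sequences are paths
-/

set_option autoImplicit false

namespace Q224.EP

open Pool.Agent.NPC

/-- The sequence `s` is a simple path under the assignment `f` of edges to pairs of vertices. -/
def IsPathSeq {V : Type} (f : ℕ → Sym2 V) (s : List ℕ) : Prop :=
  ∃ v : List V, v.length = s.length + 1 ∧ v.Nodup ∧
    ∀ (i : ℕ) (h1 : i < s.length) (h2 : i + 1 < v.length), f s[i] = s(v[i], v[i + 1])

/-- Realisable instances. -/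
def Realisable (x : List ℕ × List (List ℕ)) : Prop :=
  ∃ (V : Type) (_ : Finite V) (G : SimpleGraph V) (f : ℕ → Sym2 V),
    Set.BijOn f {e | e ∈ x.1} G.edgeSet ∧ ∀ s ∈ x.2, (∀ e ∈ s, e ∈ x.1) ∧ IsPathSeq f s

/-- The labels of a clause. -/
def lc (j t : ℕ) : ℕ := 32 * j + 16 + t

/-- The labels of a variable. -/
def lv (v t : ℕ) : ℕ := 32 * v + t

/-- Abbreviation for clauses. -/
abbrev Cl := Lit ℕ × Lit ℕ × Lit ℕ

/-- The edges of a clause. -/
def edg (p : Cl × ℕ) : List ℕ :=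
  ((List.range 13).map fun t => lc p.2 t) ++ (((List.range 5).map fun t => lv p.1.1.2 t) ++
    (((List.range 5).map fun t => lv p.1.2.1.2 t) ++ ((List.range 5).map fun t => lv p.1.2.2.2 t)))

/-- The sequences of a variable. -/
def seqV (v : ℕ) : List (List ℕ) := [[lv v 1, lv v 0, lv v 2], [lv v 3, lv v 0, lv v 4]]

/-- The sequence of a link. -/
def link (j a y v b : ℕ) : List ℕ := [lc j a, lc j 0, lc j y, lv v 0, lv v b]

/-- The tag of a literal. -/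
def tg (s : Bool) : ℕ := if s = true then 3 else 4

/-- The sequences of a clause. -/
def seqs (p : Cl × ℕ) : List (List ℕ) :=
  [[lc p.2 1, lc p.2 0, lc p.2 2], [lc p.2 3, lc p.2 0, lc p.2 4], [lc p.2 5, lc p.2 0, lc p.2 6],
    link p.2 2 7 p.1.1.2 2, link p.2 4 8 p.1.1.2 (tg p.1.1.1),
    link p.2 2 9 p.1.2.1.2 2, link p.2 6 10 p.1.2.1.2 (tg p.1.2.1.1),
    link p.2 4 11 p.1.2.2.2 2, link p.2 6 12 p.1.2.2.2 (tg p.1.2.2.1)] ++
  (seqV p.1.1.2 ++ (seqV p.1.2.1.2 ++ seqV p.1.2.2.2))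

/-- The reduction. -/
def red (φ : List Cl) : List ℕ × List (List ℕ) :=
  (φ.zipIdx.flatMap edg, φ.zipIdx.flatMap seqs)

/-! ### From realisations to assignments -/

section

variable {V : Type} {f : ℕ → Sym2 V} {E : Set ℕ}

open Classical in
/-- The common vertex of two edges. -/
noncomputable def al [Nonempty V] (f : ℕ → Sym2 V) (h d : ℕ) : V :=
  Classical.epsilon fun a => a ∈ f d ∧ a ∈ f h

theorem al_eq [Nonempty V] (hf : Set.InjOn f E) {h d : ℕ} (hh : h ∈ E) (hd : d ∈ E) (hne : d ≠ h)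
    {a : V} (h1 : a ∈ f d) (h2 : a ∈ f h) : al f h d = a := by
  have hs : al f h d ∈ f d ∧ al f h d ∈ f h :=
    Classical.epsilon_spec (p := fun a => a ∈ f d ∧ a ∈ f h) ⟨a, h1, h2⟩
  by_contra hne2
  have h3 := (Sym2.mem_and_mem_iff hne2).mp ⟨hs.1, h1⟩
  have h4 := (Sym2.mem_and_mem_iff hne2).mp ⟨hs.2, h2⟩
  exact hne (hf hd hh (h3.trans h4.symm))

/-- Opposite ends. -/
def Opp [Nonempty V] (f : ℕ → Sym2 V) (h d d' : ℕ) : Prop :=
  f h = s(al f h d, al f h d') ∧ al f h d ≠ al f h d'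

theorem Opp.symm [Nonempty V] {h d d' : ℕ} (hh : Opp f h d d') : Opp f h d' d :=
  ⟨hh.1.trans Sym2.eq_swap, hh.2.symm⟩

theorem opp_of_seq [Nonempty V] (hf : Set.InjOn f E) {h d d' : ℕ} (hh : h ∈ E) (hd : d ∈ E)
    (hd' : d' ∈ E) (h1 : d ≠ h) (h2 : d' ≠ h) (hp : IsPathSeq f [d, h, d']) : Opp f h d d' := by
  obtain ⟨v, hl, hn, hv⟩ := hp
  obtain _ | ⟨p0, _ | ⟨p1, _ | ⟨p2, _ | ⟨p3, _ | ⟨p4, v⟩⟩⟩⟩⟩ := v <;> simp at hl
  have e0 := hv 0 (by simp) (by simp)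
  have e1 := hv 1 (by simp) (by simp)
  have e2 := hv 2 (by simp) (by simp)
  simp at e0 e1 e2 hn
  have a1 : al f h d = p1 := al_eq hf hh hd h1 (by rw [e0]; simp) (by rw [e1]; simp)
  have a2 : al f h d' = p2 := al_eq hf hh hd' h2 (by rw [e2]; simp) (by rw [e1]; simp)
  refine ⟨by rw [a1, a2, e1], ?_⟩
  rw [a1, a2]
  exact hn.2.1.1

theorem link_fact [Nonempty V] (hf : Set.InjOn f E) {h d d' y k g g' : ℕ} (hh : h ∈ E)
    (hd' : d' ∈ E) (hk : k ∈ E) (hg' : g' ∈ E) (h1 : d' ≠ h) (h2 : g' ≠ k)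
    (ho : Opp f h d d') (ho' : Opp f k g g') (hp : IsPathSeq f [d', h, y, k, g']) :
    f y = s(al f h d, al f k g) := by
  obtain ⟨v, hl, hn, hv⟩ := hp
  obtain _ | ⟨p0, _ | ⟨p1, _ | ⟨p2, _ | ⟨p3, _ | ⟨p4, _ | ⟨p5, _ | ⟨p6, v⟩⟩⟩⟩⟩⟩⟩ := v <;>
    simp at hl
  have e0 := hv 0 (by simp) (by simp)
  have e1 := hv 1 (by simp) (by simp)
  have e2 := hv 2 (by simp) (by simp)
  have e3 := hv 3 (by simp) (by simp)
  have e4 := hv 4 (by simp) (by simp)
  simp at e0 e1 e2 e3 e4 hn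
  have a1 : al f h d' = p1 := al_eq hf hh hd' h1 (by rw [e0]; simp) (by rw [e1]; simp)
  have a2 : al f k g' = p4 := al_eq hf hk hg' h2 (by rw [e4]; simp) (by rw [e3]; simp)
  have o1 := ho.1
  have o2 := ho'.1
  rw [e1, a1, Sym2.eq_iff] at o1
  rw [e3, a2, Sym2.eq_iff] at o2
  have n1 := ho.2
  rw [a1] at n1
  have n2 := ho'.2
  rw [a2] at n2
  rw [e2]
  rcases o1 with ⟨o1, o1'⟩ | ⟨o1, o1'⟩
  · exact absurd o1.symm n1
  · rcases o2 with ⟨o2, o2'⟩ | ⟨o2, o2'⟩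
    · rw [o1', o2]
    · exact absurd o2 hn.2.2.2.1.1

theorem mem_edg {p : Cl × ℕ} {e : ℕ} : e ∈ edg p ↔ (∃ t < 13, lc p.2 t = e) ∨
    (∃ t < 5, lv p.1.1.2 t = e) ∨ (∃ t < 5, lv p.1.2.1.2 t = e) ∨ ∃ t < 5, lv p.1.2.2.2 t = e := by
  unfold edg
  simp only [List.mem_append, List.mem_map, List.mem_range]

theorem exists_idx {φ : List Cl} {c : Cl} (hc : c ∈ φ) : ∃ j, (c, j) ∈ φ.zipIdx := by
  obtain ⟨j, hj, h⟩ := List.getElem_of_mem hc
  refine ⟨j, ?_⟩
  rw [List.mem_zipIdx_iff_getElem?]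
  simp only
  rw [List.getElem?_eq_getElem hj, h]

theorem bool_ne {a b : Bool} (h : ¬ a = b) : a = !b := by
  cases a <;> cases b <;> simp_all

theorem sat_of_real {φ : List Cl} (h : Realisable (red φ)) : SAT3 φ := by
  classical
  obtain ⟨V, _, G, f, hbij, hseq⟩ := h
  rcases φ.eq_nil_or_concat with rfl | ⟨_, _, hφ⟩
  · exact ⟨fun _ => true, by simp⟩
  have hne : φ ≠ [] := by
    rw [hφ]
    simp
  clear hφ
  obtain ⟨c0, hc0⟩ := List.exists_mem_of_ne_nil φ hne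
  have hE : ∀ p ∈ φ.zipIdx, ∀ e ∈ edg p, e ∈ {e | e ∈ (red φ).1} := by
    intro p hp e he
    exact List.mem_flatMap.mpr ⟨p, hp, he⟩
  have hS : ∀ p ∈ φ.zipIdx, ∀ s ∈ seqs p, IsPathSeq f s := by
    intro p hp s hs
    exact (hseq s (List.mem_flatMap.mpr ⟨p, hp, hs⟩)).2
  have hV : Nonempty V := by
    obtain ⟨j, hj⟩ := exists_idx hc0
    obtain ⟨v, hl, -, -⟩ := hS _ hj [lc j 1, lc j 0, lc j 2] (by simp [seqs])
    obtain _ | ⟨p0, v⟩ := v
    · simp at hl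
    · exact ⟨p0⟩
  have hf := hbij.injOn
  refine ⟨fun v => decide (al f (lv v 0) (lv v 3) = al f (lv v 0) (lv v 1)), fun c hc => ?_⟩
  obtain ⟨j, hj⟩ := exists_idx hc
  have hEj := hE _ hj
  have hSj := hS _ hj
  have mc : ∀ t < 13, lc j t ∈ {e | e ∈ (red φ).1} := fun t ht =>
    hEj _ (mem_edg.mpr (Or.inl ⟨t, ht, rfl⟩))
  -- facts on variables
  have hvar : ∀ v, (∀ t < 5, lv v t ∈ {e | e ∈ (red φ).1}) → (∀ s ∈ seqV v, IsPathSeq f s) →
      Opp f (lv v 0) (lv v 1) (lv v 2) ∧ Opp f (lv v 0) (lv v 3) (lv v 4) := by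
    intro v h1 h2
    refine ⟨opp_of_seq hf (h1 0 (by norm_num)) (h1 1 (by norm_num)) (h1 2 (by norm_num))
      (by simp [lv]) (by simp [lv]) (h2 _ (by simp [seqV])),
      opp_of_seq hf (h1 0 (by norm_num)) (h1 3 (by norm_num)) (h1 4 (by norm_num))
      (by simp [lv]) (by simp [lv]) (h2 _ (by simp [seqV]))⟩
  have m1 : ∀ t < 5, lv c.1.2 t ∈ {e | e ∈ (red φ).1} := fun t ht =>
    hEj _ (mem_edg.mpr (Or.inr (Or.inl ⟨t, ht, rfl⟩)))
  have m2 : ∀ t < 5, lv c.2.1.2 t ∈ {e | e ∈ (red φ).1} := fun t ht =>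
    hEj _ (mem_edg.mpr (Or.inr (Or.inr (Or.inl ⟨t, ht, rfl⟩))))
  have m3 : ∀ t < 5, lv c.2.2.2 t ∈ {e | e ∈ (red φ).1} := fun t ht =>
    hEj _ (mem_edg.mpr (Or.inr (Or.inr (Or.inr ⟨t, ht, rfl⟩))))
  have v1 := hvar c.1.2 m1 fun s hs => hSj s (by simp [seqs]; tauto)
  have v2 := hvar c.2.1.2 m2 fun s hs => hSj s (by simp [seqs]; tauto)
  have v3 := hvar c.2.2.2 m3 fun s hs => hSj s (by simp [seqs]; tauto)
  have oR : Opp f (lc j 0) (lc j 1) (lc j 2) := opp_of_seq hf (mc 0 (by norm_num))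
    (mc 1 (by norm_num)) (mc 2 (by norm_num)) (by simp [lc]) (by simp [lc]) (hSj _ (by simp [seqs]))
  have oA : Opp f (lc j 0) (lc j 3) (lc j 4) := opp_of_seq hf (mc 0 (by norm_num))
    (mc 3 (by norm_num)) (mc 4 (by norm_num)) (by simp [lc]) (by simp [lc]) (hSj _ (by simp [seqs]))
  have oB : Opp f (lc j 0) (lc j 5) (lc j 6) := opp_of_seq hf (mc 0 (by norm_num))
    (mc 5 (by norm_num)) (mc 6 (by norm_num)) (by simp [lc]) (by simp [lc]) (hSj _ (by simp [seqs]))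
  -- the two links of a literal
  have hlink : ∀ (v : ℕ) (s : Bool) (a b a' b' y z : ℕ), (∀ t < 5, lv v t ∈ {e | e ∈ (red φ).1}) →
      Opp f (lv v 0) (lv v 1) (lv v 2) → Opp f (lv v 0) (lv v 3) (lv v 4) →
      Opp f (lc j 0) (lc j a) (lc j b) → Opp f (lc j 0) (lc j a') (lc j b') → b < 13 → b' < 13 →
      0 < b → 0 < b' → y < 13 → z < 13 → y ≠ z →
      IsPathSeq f (link j b y v 2) → IsPathSeq f (link j b' z v (tg s)) →
      al f (lc j 0) (lc j a) = al f (lc j 0) (lc j a') →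
      decide (al f (lv v 0) (lv v 3) = al f (lv v 0) (lv v 1)) = s := by
    intro v s a b a' b' y z hm h1 h2 h3 h4 hb hb' hb0 hb0' hy hz hyz h5 h6 h7
    by_contra hlit
    have e1 := link_fact hf (mc 0 (by norm_num)) (mc b hb) (hm 0 (by norm_num))
      (hm 2 (by norm_num)) (by simp [lc]; omega) (by simp [lv]) h3 h1 h5
    have key : ∀ d d', d' < 5 → 0 < d' → tg s = d' → Opp f (lv v 0) (lv v d) (lv v d') →
        al f (lv v 0) (lv v d) = al f (lv v 0) (lv v 1) → False := by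
      intro d d' hd' hd0 ht ho he
      rw [ht] at h6
      have e2 := link_fact hf (mc 0 (by norm_num)) (mc b' hb') (hm 0 (by norm_num))
        (hm d' hd') (by simp [lc]; omega) (by simp [lv]; omega) h4 ho h6
      rw [he, ← h7, ← e1] at e2
      have := hf (mc z hz) (mc y hy) e2
      simp [lc] at this
      omega
    cases s with
    | false =>
      have h8 : al f (lv v 0) (lv v 3) = al f (lv v 0) (lv v 1) := by
        have := bool_ne hlit
        simpa using this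
      exact key 3 4 (by norm_num) (by norm_num) (by simp [tg]) h2 h8
    | true =>
      have h8 : al f (lv v 0) (lv v 3) ≠ al f (lv v 0) (lv v 1) := by
        have := bool_ne hlit
        simpa using this
      refine key 4 3 (by norm_num) (by norm_num) (by simp [tg]) h2.symm ?_
      have h9 := h2.1
      rw [h1.1, Sym2.eq_iff] at h9
      rcases h9 with ⟨h9, h9'⟩ | ⟨h9, h9'⟩
      · exact absurd h9.symm h8
      · exact h9.symm
  have l1 := hlink c.1.2 c.1.1 1 2 3 4 7 8 m1 v1.1 v1.2 oR oA (by norm_num) (by norm_num)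
    (by norm_num) (by norm_num) (by norm_num) (by norm_num) (by norm_num)
    (hSj _ (by simp [seqs])) (hSj _ (by simp [seqs]))
  have l2 := hlink c.2.1.2 c.2.1.1 1 2 5 6 9 10 m2 v2.1 v2.2 oR oB (by norm_num) (by norm_num)
    (by norm_num) (by norm_num) (by norm_num) (by norm_num) (by norm_num)
    (hSj _ (by simp [seqs])) (hSj _ (by simp [seqs]))
  have l3 := hlink c.2.2.2 c.2.2.1 3 4 5 6 11 12 m3 v3.1 v3.2 oA oB (by norm_num) (by norm_num)
    (by norm_num) (by norm_num) (by norm_num) (by norm_num) (by norm_num)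
    (hSj _ (by simp [seqs])) (hSj _ (by simp [seqs]))
  by_cases hA : al f (lc j 0) (lc j 1) = al f (lc j 0) (lc j 3)
  · exact Or.inl (l1 hA)
  by_cases hB : al f (lc j 0) (lc j 1) = al f (lc j 0) (lc j 5)
  · exact Or.inr (Or.inl (l2 hB))
  refine Or.inr (Or.inr (l3 ?_))
  have h1 := oA.1
  rw [oR.1, Sym2.eq_iff] at h1
  have h2 := oB.1
  rw [oR.1, Sym2.eq_iff] at h2
  rcases h1 with ⟨h1, -⟩ | ⟨-, h1⟩
  · exact absurd h1 hA
  · rcases h2 with ⟨h2, -⟩ | ⟨-, h2⟩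
    · exact absurd h2 hB
    · rw [← h1, h2]

end

end Q224.EP
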