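import Pool.Agent.Q224.EP.Defs

/-!
# From assignments to realisations
-/

set_option autoImplicit false

namespace Q224.EP

open Pool.Agent.NPC

/-- The vertices. -/
abbrev Vx (M : ℕ) := Bool × Fin (M + 1) × Fin 8

/-- Indices. -/
def ix (M i : ℕ) : Fin (M + 1) := Fin.ofNat (M + 1) i

theorem ix_inj {M i j : ℕ} (hi : i ≤ M) (hj : j ≤ M) (h : ix M i = ix M j) : i = j := by
  have := congrArg Fin.val h
  simp only [ix, Fin.val_ofNat] at this
  rwa [Nat.mod_eq_of_lt (by omega), Nat.mod_eq_of_lt (by omega)] at this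

/-- Sides. -/
def bs (x : Bool) : Fin 8 := if x = true then 0 else 1

theorem bs_inj {x y : Bool} (h : bs x = bs y) : x = y := by
  cases x <;> cases y <;> simp_all [bs]

/-- Private vertices. -/
def pv (t : ℕ) : Fin 8 := Fin.ofNat 8 (t + 1)

theorem pv_ne {t : ℕ} (h1 : 1 ≤ t) (h2 : t ≤ 6) (x : Bool) : pv t ≠ bs x := by
  intro h
  have := congrArg Fin.val h
  simp only [pv, Fin.val_ofNat, bs] at this
  split_ifs at this <;> simp at this <;> omega

theorem pv_inj {t t' : ℕ} (h2 : t ≤ 6) (h2' : t' ≤ 6) (h : pv t = pv t') : t = t' := by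
  have := congrArg Fin.val h
  simp only [pv, Fin.val_ofNat] at this
  omega

section

variable (φ : List Cl) (τ : ℕ → Bool) (M : ℕ)

/-- The clause with number `j`. -/
def clj (j : ℕ) : Cl := φ.getD j ((true, 0), (true, 0), (true, 0))

/-- The value of a literal. -/
def lt (l : Lit ℕ) : Bool := decide (τ l.2 = l.1)

/-- The first auxiliary variable. -/
def Aj (j : ℕ) : Bool := lt τ (clj φ j).1 && !lt τ (clj φ j).2.2

/-- The second auxiliary variable. -/
def Bj (j : ℕ) : Bool := !lt τ (clj φ j).1 && !lt τ (clj φ j).2.2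

/-- Sides at a variable hub. -/
def sv (v t : ℕ) : Bool :=
  if t = 1 then true else if t = 2 then false else if t = 3 then τ v else !τ v

/-- Sides at a clause hub. -/
def sc (j t : ℕ) : Bool :=
  if t = 1 then true else if t = 2 then false else if t = 3 then Aj φ τ j else
  if t = 4 then !Aj φ τ j else if t = 5 then Bj φ τ j else if t = 6 then !Bj φ τ j else
  if t = 7 then true else if t = 8 then Aj φ τ j else if t = 9 then true else
  if t = 10 then Bj φ τ j else if t = 11 then Aj φ τ j else Bj φ τ j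

/-- Sides of links at the variable hub. -/
def sw (j t : ℕ) : Bool :=
  if t = 7 then true else if t = 8 then !lt τ (clj φ j).1 else if t = 9 then true else
  if t = 10 then !lt τ (clj φ j).2.1 else if t = 11 then true else !lt τ (clj φ j).2.2

/-- The variable of a link. -/
def vr (j t : ℕ) : ℕ :=
  if t ≤ 8 then (clj φ j).1.2 else if t ≤ 10 then (clj φ j).2.1.2 else (clj φ j).2.2.2

/-- The realisation. -/
def fr (e : ℕ) : Sym2 (Vx M) :=
  if e / 16 % 2 = 0 then
    if e % 16 = 0 then s((false, ix M (e / 32), bs true), (false, ix M (e / 32), bs false))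
    else s((false, ix M (e / 32), bs (sv τ (e / 32) (e % 16))),
      (false, ix M (e / 32), pv (e % 16)))
  else
    if e % 16 = 0 then s((true, ix M (e / 32), bs true), (true, ix M (e / 32), bs false))
    else if e % 16 ≤ 6 then s((true, ix M (e / 32), bs (sc φ τ (e / 32) (e % 16))),
      (true, ix M (e / 32), pv (e % 16)))
    else s((true, ix M (e / 32), bs (sc φ τ (e / 32) (e % 16))),
      (false, ix M (vr φ (e / 32) (e % 16)), bs (sw φ τ (e / 32) (e % 16))))

variable {φ τ M}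

theorem fr_lv0 (v : ℕ) : fr φ τ M (lv v 0) =
    s((false, ix M v, bs true), (false, ix M v, bs false)) := by
  unfold fr lv
  rw [if_pos (by omega), if_pos (by omega), show (32 * v + 0) / 32 = v by omega]

theorem fr_lv {v t : ℕ} (h1 : 1 ≤ t) (h2 : t < 5) : fr φ τ M (lv v t) =
    s((false, ix M v, bs (sv τ v t)), (false, ix M v, pv t)) := by
  unfold fr lv
  rw [if_pos (by omega), if_neg (by omega), show (32 * v + t) / 32 = v by omega,
    show (32 * v + t) % 16 = t by omega]

theorem fr_lc0 (j : ℕ) : fr φ τ M (lc j 0) =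
    s((true, ix M j, bs true), (true, ix M j, bs false)) := by
  unfold fr lc
  rw [if_neg (by omega), if_pos (by omega), show (32 * j + 16 + 0) / 32 = j by omega]

theorem fr_lc {j t : ℕ} (h1 : 1 ≤ t) (h2 : t ≤ 6) : fr φ τ M (lc j t) =
    s((true, ix M j, bs (sc φ τ j t)), (true, ix M j, pv t)) := by
  unfold fr lc
  rw [if_neg (by omega), if_neg (by omega), if_pos (by omega),
    show (32 * j + 16 + t) / 32 = j by omega, show (32 * j + 16 + t) % 16 = t by omega]

theorem fr_ll {j t : ℕ} (h1 : 7 ≤ t) (h2 : t < 13) : fr φ τ M (lc j t) =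
    s((true, ix M j, bs (sc φ τ j t)), (false, ix M (vr φ j t), bs (sw φ τ j t))) := by
  unfold fr lc
  rw [if_neg (by omega), if_neg (by omega), if_neg (by omega),
    show (32 * j + 16 + t) / 32 = j by omega, show (32 * j + 16 + t) % 16 = t by omega]

end

theorem path3 {V : Type} {f : ℕ → Sym2 V} {d h d' : ℕ} {p q p' q' : V} (hd : f d = s(p, q))
    (hh : f h = s(p, p')) (hd' : f d' = s(p', q')) (hn : [q, p, p', q'].Nodup) :
    IsPathSeq f [d, h, d'] := by
  refine ⟨[q, p, p', q'], rfl, hn, fun i h1 h2 => ?_⟩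
  simp at h1
  interval_cases i
  · simpa using hd.trans Sym2.eq_swap
  · simpa using hh
  · simpa using hd'

theorem path5 {V : Type} {f : ℕ → Sym2 V} {d h y k g : ℕ} {q p p2 p3 p4 q' : V}
    (hd : f d = s(p, q)) (hh : f h = s(p, p2)) (hy : f y = s(p2, p3)) (hk : f k = s(p3, p4))
    (hg : f g = s(p4, q')) (hn : [q, p, p2, p3, p4, q'].Nodup) :
    IsPathSeq f [d, h, y, k, g] := by
  refine ⟨[q, p, p2, p3, p4, q'], rfl, hn, fun i h1 h2 => ?_⟩
  simp at h1
  interval_cases i
  · simpa using hd.trans Sym2.eq_swap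
  · simpa using hh
  · simpa using hy
  · simpa using hk
  · simpa using hg

theorem hub_eq {M : ℕ} (b : Bool) (i : Fin (M + 1)) {x y : Bool} (h : y = !x) :
    s(((b, i, bs true) : Vx M), (b, i, bs false)) = s((b, i, bs x), (b, i, bs y)) := by
  subst h
  cases x
  · exact Sym2.eq_swap
  · rfl

theorem nodup4 {M : ℕ} (b : Bool) (i : Fin (M + 1)) {x y : Bool} (h : y = !x) {t t' : ℕ}
    (h1 : 1 ≤ t) (h2 : t ≤ 6) (h3 : 1 ≤ t') (h4 : t' ≤ 6) (h5 : t ≠ t') :
    [((b, i, pv t) : Vx M), (b, i, bs x), (b, i, bs y), (b, i, pv t')].Nodup := by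
  have a1 := pv_ne h1 h2 x
  have a2 := pv_ne h1 h2 y
  have a3 := (pv_ne h3 h4 x).symm
  have a4 := (pv_ne h3 h4 y).symm
  have a5 : pv t ≠ pv t' := fun hh => h5 (pv_inj h2 h4 hh)
  have a6 : bs x ≠ bs y := by
    intro hh
    have := bs_inj hh
    subst h
    cases x <;> simp at this
  simp [a1, a2, a3, a4, a5, a6]

theorem nodup6 {M : ℕ} (i j : Fin (M + 1)) {x y z w : Bool} (h : y = !x) (h' : w = !z) {t t' : ℕ}
    (h1 : 1 ≤ t) (h2 : t ≤ 6) (h3 : 1 ≤ t') (h4 : t' ≤ 6) :
    [((true, i, pv t) : Vx M), (true, i, bs x), (true, i, bs y), (false, j, bs z),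
      (false, j, bs w), (false, j, pv t')].Nodup := by
  have a1 := pv_ne h1 h2 x
  have a2 := pv_ne h1 h2 y
  have a3 := (pv_ne h3 h4 z).symm
  have a4 := (pv_ne h3 h4 w).symm
  have a6 : bs x ≠ bs y := by
    intro hh
    have := bs_inj hh
    subst h
    cases x <;> simp at this
  have a7 : bs z ≠ bs w := by
    intro hh
    have := bs_inj hh
    subst h'
    cases z <;> simp at this
  simp [a1, a2, a3, a4, a6, a7]

section

variable {φ : List Cl} {τ : ℕ → Bool} {M : ℕ}

theorem seqV_ok (v : ℕ) : ∀ s ∈ seqV v, IsPathSeq (fr φ τ M) s := by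
  intro s hs
  simp only [seqV, List.mem_cons, List.not_mem_nil, or_false] at hs
  rcases hs with rfl | rfl
  · exact path3 (fr_lv (by norm_num) (by norm_num)) ((fr_lv0 v).trans (hub_eq _ _ (by simp [sv])))
      (fr_lv (by norm_num) (by norm_num)) (nodup4 _ _ (by simp [sv]) (by norm_num) (by norm_num)
        (by norm_num) (by norm_num) (by norm_num))
  · exact path3 (fr_lv (by norm_num) (by norm_num)) ((fr_lv0 v).trans (hub_eq _ _ (by simp [sv])))
      (fr_lv (by norm_num) (by norm_num)) (nodup4 _ _ (by simp [sv]) (by norm_num) (by norm_num)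
        (by norm_num) (by norm_num) (by norm_num))

theorem link_ok {j a y v b : ℕ} (ha : 1 ≤ a) (ha' : a ≤ 6) (hy : 7 ≤ y) (hy' : y < 13)
    (hb : 1 ≤ b) (hb' : b < 5) (hv : vr φ j y = v) (h1 : sc φ τ j y = !sc φ τ j a)
    (h2 : sv τ v b = !sw φ τ j y) : IsPathSeq (fr φ τ M) (link j a y v b) := by
  unfold link
  refine path5 (fr_lc ha ha') ((fr_lc0 j).trans (hub_eq _ _ h1)) ?_
    ((fr_lv0 v).trans (hub_eq _ _ h2)) (fr_lv hb hb')
    (nodup6 _ _ h1 h2 ha ha' hb (by omega))
  rw [fr_ll hy hy', hv]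

theorem seqs_ok {c : Cl} {j : ℕ} (hc : clj φ j = c) (s : List ℕ) (hs : s ∈ seqs (c, j)) :
    IsPathSeq (fr φ τ M) s := by
  subst hc
  unfold seqs at hs
  rw [List.mem_append, List.mem_append, List.mem_append] at hs
  have htg : ∀ l : Lit ℕ, sv τ l.2 (tg l.1) = !(!lt τ l) := by
    intro l
    obtain ⟨s, v⟩ := l
    cases s <;> cases h : τ v <;> simp [sv, tg, lt, h]
  have ht1 : ∀ s, 1 ≤ tg s := by intro s; cases s <;> simp [tg]
  have ht2 : ∀ s, tg s < 5 := by intro s; cases s <;> simp [tg]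
  rcases hs with hs | hs | hs | hs
  · simp only [List.mem_cons, List.not_mem_nil, or_false] at hs
    rcases hs with rfl | rfl | rfl | rfl | rfl | rfl | rfl | rfl | rfl
    · exact path3 (fr_lc (by norm_num) (by norm_num))
        ((fr_lc0 j).trans (hub_eq _ _ (by simp [sc])))
        (fr_lc (by norm_num) (by norm_num)) (nodup4 _ _ (by simp [sc]) (by norm_num) (by norm_num)
          (by norm_num) (by norm_num) (by norm_num))
    · exact path3 (fr_lc (by norm_num) (by norm_num))
        ((fr_lc0 j).trans (hub_eq _ _ (by simp [sc])))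
        (fr_lc (by norm_num) (by norm_num)) (nodup4 _ _ (by simp [sc]) (by norm_num) (by norm_num)
          (by norm_num) (by norm_num) (by norm_num))
    · exact path3 (fr_lc (by norm_num) (by norm_num))
        ((fr_lc0 j).trans (hub_eq _ _ (by simp [sc])))
        (fr_lc (by norm_num) (by norm_num)) (nodup4 _ _ (by simp [sc]) (by norm_num) (by norm_num)
          (by norm_num) (by norm_num) (by norm_num))
    · exact link_ok (by norm_num) (by norm_num) (by norm_num) (by norm_num) (by norm_num)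
        (by norm_num) (by simp [vr]) (by simp [sc]) (by simp [sv, sw])
    · exact link_ok (by norm_num) (by norm_num) (by norm_num) (by norm_num) (ht1 _) (ht2 _)
        (by simp [vr]) (by simp [sc]) (by rw [htg]; simp [sw])
    · exact link_ok (by norm_num) (by norm_num) (by norm_num) (by norm_num) (by norm_num)
        (by norm_num) (by simp [vr]) (by simp [sc]) (by simp [sv, sw])
    · exact link_ok (by norm_num) (by norm_num) (by norm_num) (by norm_num) (ht1 _) (ht2 _)
        (by simp [vr]) (by simp [sc]) (by rw [htg]; simp [sw])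
    · exact link_ok (by norm_num) (by norm_num) (by norm_num) (by norm_num) (by norm_num)
        (by norm_num) (by simp [vr]) (by simp [sc]) (by simp [sv, sw])
    · exact link_ok (by norm_num) (by norm_num) (by norm_num) (by norm_num) (ht1 _) (ht2 _)
        (by simp [vr]) (by simp [sc]) (by rw [htg]; simp [sw])
  · exact seqV_ok _ s hs
  · exact seqV_ok _ s hs
  · exact seqV_ok _ s hs

/-- The three shapes of the edges. -/
def Shape (φ : List Cl) (τ : ℕ → Bool) (M : ℕ) (e : ℕ) : Prop :=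
  (∃ b i, i ≤ M ∧ e = 32 * i + (if b = true then 16 else 0) ∧
    fr φ τ M e = s((b, ix M i, bs true), (b, ix M i, bs false))) ∨
  (∃ b i t x, i ≤ M ∧ 1 ≤ t ∧ t ≤ 6 ∧ e = 32 * i + (if b = true then 16 else 0) + t ∧
    fr φ τ M e = s((b, ix M i, bs x), (b, ix M i, pv t))) ∨
  (∃ j t, j < φ.length ∧ 7 ≤ t ∧ t < 13 ∧ e = lc j t ∧ vr φ j t ≤ M ∧
    fr φ τ M e = s((true, ix M j, bs (sc φ τ j t)), (false, ix M (vr φ j t), bs (sw φ τ j t))))

theorem shape (hM : ∀ c ∈ φ, c.1.2 ≤ M ∧ c.2.1.2 ≤ M ∧ c.2.2.2 ≤ M) (hM' : φ.length ≤ M) {e : ℕ}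
    (he : e ∈ (red φ).1) : Shape φ τ M e := by
  obtain ⟨⟨c, j⟩, hp, he⟩ := List.mem_flatMap.mp he
  rw [List.mem_zipIdx_iff_getElem?] at hp
  simp only at hp
  have hj : j < φ.length := by
    by_contra h
    rw [List.getElem?_eq_none (by omega)] at hp
    cases hp
  have hc : φ[j] = c := by
    rw [List.getElem?_eq_getElem hj] at hp
    exact Option.some.inj hp
  have hcl : clj φ j = c := by
    unfold clj
    rw [List.getD_eq_getElem _ _ hj, hc]
  have hmem : c ∈ φ := hc ▸ List.getElem_mem hj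
  have hv : ∀ v t, v ≤ M → t < 5 → lv v t = e → Shape φ τ M e := by
    intro v t hv ht hvt
    subst hvt
    by_cases h0 : t = 0
    · subst h0
      exact Or.inl ⟨false, v, hv, by simp [lv], fr_lv0 v⟩
    · exact Or.inr (Or.inl ⟨false, v, t, _, hv, by omega, by omega, by simp [lv],
        fr_lv (by omega) ht⟩)
  rcases mem_edg.mp he with ⟨t, ht, hvt⟩ | ⟨t, ht, hvt⟩ | ⟨t, ht, hvt⟩ | ⟨t, ht, hvt⟩
  · simp only at hvt
    subst hvt
    by_cases h0 : t = 0
    · subst h0
      exact Or.inl ⟨true, j, by omega, by simp [lc], fr_lc0 j⟩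
    · by_cases h6 : t ≤ 6
      · exact Or.inr (Or.inl ⟨true, j, t, _, by omega, by omega, by omega, by simp [lc],
          fr_lc (by omega) h6⟩)
      · refine Or.inr (Or.inr ⟨j, t, hj, by omega, ht, rfl, ?_, fr_ll (by omega) ht⟩)
        unfold vr
        rw [hcl]
        have := hM c hmem
        split_ifs <;> omega
  · exact hv _ t (hM c hmem).1 ht hvt
  · exact hv _ t (hM c hmem).2.1 ht hvt
  · exact hv _ t (hM c hmem).2.2 ht hvt

theorem link_inj {j t t' : ℕ} (hd : (clj φ j).1.2 ≠ (clj φ j).2.1.2 ∧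
    (clj φ j).1.2 ≠ (clj φ j).2.2.2 ∧ (clj φ j).2.1.2 ≠ (clj φ j).2.2.2)
    (hτ : τ (clj φ j).1.2 = (clj φ j).1.1 ∨ τ (clj φ j).2.1.2 = (clj φ j).2.1.1 ∨
      τ (clj φ j).2.2.2 = (clj φ j).2.2.1) (h1 : 7 ≤ t) (h2 : t < 13) (h3 : 7 ≤ t') (h4 : t' < 13)
    (hv : vr φ j t = vr φ j t') (hs : sc φ τ j t = sc φ τ j t') (hw : sw φ τ j t = sw φ τ j t') :
    t = t' := by
  have hsat : lt τ (clj φ j).1 = true ∨ lt τ (clj φ j).2.1 = true ∨
      lt τ (clj φ j).2.2 = true := by
    simpa only [lt, decide_eq_true_eq] using hτ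
  have n1 : ¬ (true = Aj φ τ j ∧ true = !lt τ (clj φ j).1) := by
    rintro ⟨ha, hb⟩
    unfold Aj at ha
    cases h : lt τ (clj φ j).1 <;> simp [h] at ha hb
  have n2 : ¬ (true = Bj φ τ j ∧ true = !lt τ (clj φ j).2.1) := by
    rintro ⟨ha, hb⟩
    unfold Bj at ha
    cases h : lt τ (clj φ j).1 <;> cases h' : lt τ (clj φ j).2.1 <;>
      cases h'' : lt τ (clj φ j).2.2 <;> simp [h, h', h''] at ha hb hsat
  have n3 : ¬ (Aj φ τ j = Bj φ τ j ∧ true = !lt τ (clj φ j).2.2) := by
    rintro ⟨ha, hb⟩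
    unfold Aj Bj at ha
    cases h : lt τ (clj φ j).1 <;> cases h'' : lt τ (clj φ j).2.2 <;> simp [h, h''] at ha hb
  have hcl : (t ≤ 8 ∧ t' ≤ 8) ∨ (8 < t ∧ t ≤ 10 ∧ 8 < t' ∧ t' ≤ 10) ∨ (10 < t ∧ 10 < t') := by
    unfold vr at hv
    by_cases a : t ≤ 8 <;> by_cases a' : t' ≤ 8 <;> by_cases b : t ≤ 10 <;>
      by_cases b' : t' ≤ 10 <;> simp only [a, a', b, b', if_true, if_false] at hv <;>
      first
      | omega
      | exact absurd hv hd.1
      | exact absurd hv hd.2.1
      | exact absurd hv hd.2.2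
      | exact absurd hv.symm hd.1
      | exact absurd hv.symm hd.2.1
      | exact absurd hv.symm hd.2.2
  by_contra hne
  rcases hcl with ⟨a, b⟩ | ⟨a, b, c, d⟩ | ⟨a, b⟩
  · have h5 : (t = 7 ∧ t' = 8) ∨ (t = 8 ∧ t' = 7) := by omega
    rcases h5 with ⟨rfl, rfl⟩ | ⟨rfl, rfl⟩
    · exact n1 ⟨by simpa [sc] using hs, by simpa [sw] using hw⟩
    · exact n1 ⟨by simpa [sc] using hs.symm, by simpa [sw] using hw.symm⟩
  · have h5 : (t = 9 ∧ t' = 10) ∨ (t = 10 ∧ t' = 9) := by omega
    rcases h5 with ⟨rfl, rfl⟩ | ⟨rfl, rfl⟩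
    · exact n2 ⟨by simpa [sc] using hs, by simpa [sw] using hw⟩
    · exact n2 ⟨by simpa [sc] using hs.symm, by simpa [sw] using hw.symm⟩
  · have h5 : (t = 11 ∧ t' = 12) ∨ (t = 12 ∧ t' = 11) := by omega
    rcases h5 with ⟨rfl, rfl⟩ | ⟨rfl, rfl⟩
    · exact n3 ⟨by simpa [sc] using hs, by simpa [sw] using hw⟩
    · exact n3 ⟨by simpa [sc] using hs.symm, by simpa [sw] using hw.symm⟩

theorem injOn' (hd : Distinct3 φ) (hτ : ∀ c ∈ φ, τ c.1.2 = c.1.1 ∨ τ c.2.1.2 = c.2.1.1 ∨
    τ c.2.2.2 = c.2.2.1) (hM' : φ.length ≤ M) {e e' : ℕ} (he : Shape φ τ M e)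
    (he' : Shape φ τ M e') (h : fr φ τ M e = fr φ τ M e') : e = e' := by
  have key : ∀ {e e' : ℕ}, (∃ b i, i ≤ M ∧ e = 32 * i + (if b = true then 16 else 0) ∧
      fr φ τ M e = s((b, ix M i, bs true), (b, ix M i, bs false))) → Shape φ τ M e' →
      fr φ τ M e = fr φ τ M e' → e = e' := by
    rintro e e' ⟨b, i, hi, he1, he2⟩ he' h
    rw [he2] at h
    rcases he' with ⟨b', i', hi', he1', he2'⟩ | ⟨b', i', t, x, hi', ht1, ht2, he1', he2'⟩ |
      ⟨j, t, hj, ht1, ht2, he1', hv, he2'⟩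
    · rw [he2', Sym2.eq_iff] at h
      simp only [Prod.mk.injEq] at h
      have hb : b = b' := by tauto
      have hii : i = i' := by
        rcases h with h | h
        · exact ix_inj hi hi' h.1.2.1
        · exact ix_inj hi hi' h.1.2.1
      rw [he1, he1', hb, hii]
    · rw [he2', Sym2.eq_iff] at h
      simp only [Prod.mk.injEq] at h
      rcases h with h | h
      · exact absurd h.2.2.2.symm (pv_ne ht1 ht2 _)
      · exact absurd h.1.2.2.symm (pv_ne ht1 ht2 _)
    · rw [he2', Sym2.eq_iff] at h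
      simp only [Prod.mk.injEq] at h
      rcases h with h | h
      · exact absurd (h.1.1.symm.trans h.2.1) (by simp)
      · exact absurd (h.1.1.symm.trans h.2.1) (by simp)
  rcases he with h1 | h1 | h1
  · exact key h1 he' h
  · rcases he' with h2 | h2 | h2
    · exact (key h2 (Or.inr (Or.inl h1)) h.symm).symm
    · obtain ⟨b, i, t, x, hi, ht1, ht2, he1, he2⟩ := h1
      obtain ⟨b', i', t', x', hi', ht1', ht2', he1', he2'⟩ := h2
      rw [he2, he2', Sym2.eq_iff] at h
      simp only [Prod.mk.injEq] at h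
      rcases h with h | h
      · rw [he1, he1', h.2.1, ix_inj hi hi' h.2.2.1, pv_inj ht2 ht2' h.2.2.2]
      · exact absurd h.1.2.2.symm (pv_ne ht1' ht2' _)
    · obtain ⟨b, i, t, x, hi, ht1, ht2, he1, he2⟩ := h1
      obtain ⟨j, t', hj, ht1', ht2', he1', hv, he2'⟩ := h2
      rw [he2, he2', Sym2.eq_iff] at h
      simp only [Prod.mk.injEq] at h
      rcases h with h | h
      · exact absurd (h.1.1.symm.trans h.2.1) (by simp)
      · exact absurd (h.1.1.symm.trans h.2.1) (by simp)
  · rcases he' with h2 | h2 | h2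
    · exact (key h2 (Or.inr (Or.inr h1)) h.symm).symm
    · obtain ⟨b, i, t, x, hi, ht1, ht2, he1, he2⟩ := h2
      obtain ⟨j, t', hj, ht1', ht2', he1', hv, he2'⟩ := h1
      rw [he2, he2', Sym2.eq_iff] at h
      simp only [Prod.mk.injEq] at h
      rcases h with h | h
      · exact absurd (h.1.1.trans h.2.1.symm) (by simp)
      · exact absurd (h.1.1.trans h.2.1.symm) (by simp)
    · obtain ⟨j, t, hj, ht1, ht2, he1, hv, he2⟩ := h1
      obtain ⟨j', t', hj', ht1', ht2', he1', hv', he2'⟩ := h2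
      rw [he2, he2', Sym2.eq_iff] at h
      simp only [Prod.mk.injEq] at h
      rcases h with h | h
      · have hjj : j = j' := ix_inj (by omega) (by omega) h.1.2.1
        subst hjj
        have hvv := ix_inj hv hv' h.2.2.1
        have hs := bs_inj h.1.2.2
        have hw := bs_inj h.2.2.2
        have hmem : clj φ j ∈ φ := by
          unfold clj
          rw [List.getD_eq_getElem _ _ hj]
          exact List.getElem_mem hj
        have hd' := hd _ hmem
        have hτ' := hτ _ hmem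
        have htt : t = t' := link_inj hd' hτ' ht1 ht2 ht1' ht2' hvv hs hw
        rw [he1, he1', htt]
      · exact absurd h.1.1 (by simp)

theorem mem_seqs_edg {p : Cl × ℕ} (s : List ℕ) (hs : s ∈ seqs p) (e : ℕ) (he : e ∈ s) :
    e ∈ edg p := by
  have a : ∀ t < 13, lc p.2 t ∈ edg p := fun t ht => mem_edg.mpr (Or.inl ⟨t, ht, rfl⟩)
  have a1 : ∀ t < 5, lv p.1.1.2 t ∈ edg p := fun t ht =>
    mem_edg.mpr (Or.inr (Or.inl ⟨t, ht, rfl⟩))
  have a2 : ∀ t < 5, lv p.1.2.1.2 t ∈ edg p := fun t ht =>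
    mem_edg.mpr (Or.inr (Or.inr (Or.inl ⟨t, ht, rfl⟩)))
  have a3 : ∀ t < 5, lv p.1.2.2.2 t ∈ edg p := fun t ht =>
    mem_edg.mpr (Or.inr (Or.inr (Or.inr ⟨t, ht, rfl⟩)))
  have ht2 : ∀ s, tg s < 5 := by intro s; cases s <;> simp [tg]
  have hl : ∀ v b y x, (∀ t < 5, lv v t ∈ edg p) → x < 13 → y < 13 → b < 5 →
      ∀ e ∈ link p.2 x y v b, e ∈ edg p := by
    intro v b y x hv hx hy hb e he
    simp only [link, List.mem_cons, List.not_mem_nil, or_false] at he
    rcases he with rfl | rfl | rfl | rfl | rfl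
    · exact a _ hx
    · exact a _ (by norm_num)
    · exact a _ hy
    · exact hv _ (by norm_num)
    · exact hv _ hb
  have hV : ∀ v, (∀ t < 5, lv v t ∈ edg p) → ∀ s ∈ seqV v, ∀ e ∈ s, e ∈ edg p := by
    intro v hv s hs e he
    simp only [seqV, List.mem_cons, List.not_mem_nil, or_false] at hs
    rcases hs with rfl | rfl <;> simp only [List.mem_cons, List.not_mem_nil, or_false] at he <;>
      rcases he with rfl | rfl | rfl <;> exact hv _ (by norm_num)
  unfold seqs at hs
  rw [List.mem_append, List.mem_append, List.mem_append] at hs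
  rcases hs with hs | hs | hs | hs
  · simp only [List.mem_cons, List.not_mem_nil, or_false] at hs
    rcases hs with rfl | rfl | rfl | rfl | rfl | rfl | rfl | rfl | rfl
    · simp only [List.mem_cons, List.not_mem_nil, or_false] at he
      rcases he with rfl | rfl | rfl <;> exact a _ (by norm_num)
    · simp only [List.mem_cons, List.not_mem_nil, or_false] at he
      rcases he with rfl | rfl | rfl <;> exact a _ (by norm_num)
    · simp only [List.mem_cons, List.not_mem_nil, or_false] at he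
      rcases he with rfl | rfl | rfl <;> exact a _ (by norm_num)
    · exact hl _ _ _ _ a1 (by norm_num) (by norm_num) (by norm_num) e he
    · exact hl _ _ _ _ a1 (by norm_num) (by norm_num) (ht2 _) e he
    · exact hl _ _ _ _ a2 (by norm_num) (by norm_num) (by norm_num) e he
    · exact hl _ _ _ _ a2 (by norm_num) (by norm_num) (ht2 _) e he
    · exact hl _ _ _ _ a3 (by norm_num) (by norm_num) (by norm_num) e he
    · exact hl _ _ _ _ a3 (by norm_num) (by norm_num) (ht2 _) e he
  · exact hV _ a1 s hs e he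
  · exact hV _ a2 s hs e he
  · exact hV _ a3 s hs e he

theorem real_of_sat (hd : Distinct3 φ) (h : SAT3 φ) : Realisable (red φ) := by
  obtain ⟨τ, hτ⟩ := h
  obtain ⟨M, hM1, hM2⟩ : ∃ M, (∀ c ∈ φ, c.1.2 ≤ M ∧ c.2.1.2 ≤ M ∧ c.2.2.2 ≤ M) ∧
      φ.length ≤ M := by
    have : ∃ M, ∀ c ∈ φ, c.1.2 ≤ M ∧ c.2.1.2 ≤ M ∧ c.2.2.2 ≤ M := by
      clear hd hτ
      induction φ with
      | nil => exact ⟨0, by simp⟩
      | cons c φ ih =>
        obtain ⟨M, hM⟩ := ih
        refine ⟨M + c.1.2 + c.2.1.2 + c.2.2.2, fun d hd => ?_⟩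
        rcases List.mem_cons.mp hd with rfl | hd
        · omega
        · have := hM d hd
          omega
    obtain ⟨M, hM⟩ := this
    exact ⟨M + φ.length, fun c hc => by have := hM c hc; omega, by omega⟩
  have hsh : ∀ e ∈ (red φ).1, Shape φ τ M e := fun e he => shape hM1 hM2 he
  refine ⟨Vx M, inferInstance, SimpleGraph.fromEdgeSet (fr φ τ M '' {e | e ∈ (red φ).1}),
    fr φ τ M, ?_, ?_⟩
  · rw [SimpleGraph.edgeSet_fromEdgeSet]
    have hdiag : ∀ e ∈ (red φ).1, ¬ (fr φ τ M e).IsDiag := by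
      intro e he
      rcases hsh e he with ⟨b, i, -, -, h2⟩ | ⟨b, i, t, x, -, ht1, ht2, -, h2⟩ |
        ⟨j, t, -, -, -, -, -, h2⟩
      · rw [h2, Sym2.mk_isDiag_iff]
        intro h
        simp only [Prod.mk.injEq, true_and] at h
        have := bs_inj h
        simp at this
      · rw [h2, Sym2.mk_isDiag_iff]
        intro h
        simp only [Prod.mk.injEq, true_and] at h
        exact pv_ne ht1 ht2 x h.symm
      · rw [h2, Sym2.mk_isDiag_iff]
        intro h
        simp at h
    refine ⟨fun e he => ⟨⟨e, he, rfl⟩, ?_⟩, fun e he e' he' h =>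
      injOn' hd hτ hM2 (hsh e he) (hsh e' he') h, ?_⟩
    · exact hdiag e he
    · rintro _ ⟨⟨e, he, rfl⟩, -⟩
      exact ⟨e, he, rfl⟩
  · intro s hs
    obtain ⟨⟨c, j⟩, hp, hs⟩ := List.mem_flatMap.mp hs
    refine ⟨fun e he => List.mem_flatMap.mpr ⟨(c, j), hp, ?_⟩, seqs_ok ?_ s hs⟩
    · exact mem_seqs_edg s hs e he
    · rw [List.mem_zipIdx_iff_getElem?] at hp
      simp only at hp
      unfold clj
      rw [List.getD_eq_getElem?_getD, hp]
      rfl

end

end Q224.EP
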