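import Pool.Agent.Q224.EP.Real
import Pool.Agent.Q224.RD.Time

/-!
# The reduction is computable in polynomial time
-/

set_option autoImplicit false

namespace Pool.Agent.NPC.Q224EP

open _root_.Q224.EP Pool.Agent.NPC.H628F Pool.Agent.H628R2.Forb Pool.Agent.H633R2
open Pool.Agent.NPC.Q224RD

variable {α : Type} [TEnc α]

theorem p_lc {j t : α → ℕ} (hj : Poly j) (ht : Poly t) : Poly (fun a => lc (j a) (t a)) := by
  unfold lc
  exact Poly.add (Poly.add (Poly.mul (Poly.const 32) hj) (Poly.const 16)) ht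

theorem p_lv {j t : α → ℕ} (hj : Poly j) (ht : Poly t) : Poly (fun a => lv (j a) (t a)) := by
  unfold lv
  exact Poly.add (Poly.mul (Poly.const 32) hj) ht

theorem p_tg {s : α → Bool} (hs : Poly s) : Poly (fun a => tg (s a)) := by
  unfold tg
  exact Poly.ite (Poly.decide_eq hs (Poly.const true)) (Poly.const 3) (Poly.const 4)

theorem p_link {j v b : α → ℕ} (x y : ℕ) (hj : Poly j) (hv : Poly v) (hb : Poly b) :
    Poly (fun a => link (j a) x y (v a) (b a)) := by
  unfold link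
  exact Poly.cons (p_lc hj (Poly.const x)) (Poly.cons (p_lc hj (Poly.const 0))
    (Poly.cons (p_lc hj (Poly.const y)) (Poly.cons (p_lv hv (Poly.const 0))
    (Poly.cons (p_lv hv hb) (Poly.const [])))))

theorem p_seqV {v : α → ℕ} (hv : Poly v) : Poly (fun a => seqV (v a)) := by
  unfold seqV
  exact Poly.cons (Poly.cons (p_lv hv (Poly.const 1)) (Poly.cons (p_lv hv (Poly.const 0))
    (Poly.cons (p_lv hv (Poly.const 2)) (Poly.const []))))
    (Poly.cons (Poly.cons (p_lv hv (Poly.const 3)) (Poly.cons (p_lv hv (Poly.const 0))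
    (Poly.cons (p_lv hv (Poly.const 4)) (Poly.const [])))) (Poly.const []))

theorem p_three {j : α → ℕ} (x y : ℕ) (hj : Poly j) :
    Poly (fun a => [lc (j a) x, lc (j a) 0, lc (j a) y]) :=
  Poly.cons (p_lc hj (Poly.const x)) (Poly.cons (p_lc hj (Poly.const 0))
    (Poly.cons (p_lc hj (Poly.const y)) (Poly.const [])))

theorem p_edg : Poly (fun p : Cl × ℕ => edg p) := by
  unfold edg
  have h1 : Poly (fun p : Cl × ℕ => p.1) := p_fst
  have r : ∀ m : ℕ, Poly (fun _ : Cl × ℕ => List.range m) := fun m => Poly.const _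
  refine Poly.append (Poly.map (F := fun (p : Cl × ℕ) (t : ℕ) => lc p.2 t) (r 13)
    (p_lc (Poly.snd p_fst) p_snd)) (Poly.append
    (Poly.map (F := fun (p : Cl × ℕ) (t : ℕ) => lv p.1.1.2 t) (r 5) ?_) (Poly.append
    (Poly.map (F := fun (p : Cl × ℕ) (t : ℕ) => lv p.1.2.1.2 t) (r 5) ?_)
    (Poly.map (F := fun (p : Cl × ℕ) (t : ℕ) => lv p.1.2.2.2 t) (r 5) ?_)))
  · exact p_lv (Poly.snd (Poly.fst (Poly.fst p_fst))) p_snd
  · exact p_lv (Poly.snd (Poly.fst (Poly.snd (Poly.fst p_fst)))) p_snd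
  · exact p_lv (Poly.snd (Poly.snd (Poly.snd (Poly.fst p_fst)))) p_snd

theorem p_seqs : Poly (fun p : Cl × ℕ => seqs p) := by
  unfold seqs
  have hj : Poly (fun p : Cl × ℕ => p.2) := p_snd
  have v1 : Poly (fun p : Cl × ℕ => p.1.1.2) := Poly.snd (Poly.fst p_fst)
  have v2 : Poly (fun p : Cl × ℕ => p.1.2.1.2) := Poly.snd (Poly.fst (Poly.snd p_fst))
  have v3 : Poly (fun p : Cl × ℕ => p.1.2.2.2) := Poly.snd (Poly.snd (Poly.snd p_fst))
  have s1 : Poly (fun p : Cl × ℕ => p.1.1.1) := Poly.fst (Poly.fst p_fst)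
  have s2 : Poly (fun p : Cl × ℕ => p.1.2.1.1) := Poly.fst (Poly.fst (Poly.snd p_fst))
  have s3 : Poly (fun p : Cl × ℕ => p.1.2.2.1) := Poly.fst (Poly.snd (Poly.snd p_fst))
  have two : Poly (fun _ : Cl × ℕ => (2 : ℕ)) := Poly.const 2
  exact Poly.append (Poly.cons (p_three 1 2 hj) (Poly.cons (p_three 3 4 hj)
    (Poly.cons (p_three 5 6 hj) (Poly.cons (p_link 2 7 hj v1 two)
    (Poly.cons (p_link 4 8 hj v1 (p_tg s1)) (Poly.cons (p_link 2 9 hj v2 two)
    (Poly.cons (p_link 6 10 hj v2 (p_tg s2)) (Poly.cons (p_link 4 11 hj v3 two)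
    (Poly.cons (p_link 6 12 hj v3 (p_tg s3)) (Poly.const []))))))))))
    (Poly.append (p_seqV v1) (Poly.append (p_seqV v2) (p_seqV v3)))

theorem p_red : Poly red := by
  unfold red
  have h : Poly (fun φ : List Cl => φ.zipIdx) := Poly.zipIdx Poly.id
  exact Poly.pair (Poly.flatMap (F := fun (_ : List Cl) (p : Cl × ℕ) => edg p) h
    (p_edg.comp p_snd)) (Poly.flatMap (F := fun (_ : List Cl) (p : Cl × ℕ) => seqs p) h
    (p_seqs.comp p_snd))

/-- Realisability of edge sequences as paths is NP-hard. -/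
theorem hard : HardI Realisable := by
  refine (hardPr_SAT3.trans (Pr' := fun _ => True) p_red (fun _ _ => trivial)
    fun φ hd => ?_).toHardI
  exact ⟨real_of_sat hd, sat_of_real⟩

end Pool.Agent.NPC.Q224EP
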